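import Mathlib
import Pool.Agent.Y733.DYN.Cnt
import Pool.Agent.Y733.HEN.Loc

/-!
# Hénon maps with a large constant term: heights
-/

set_option autoImplicit false
set_option linter.unusedSectionVars false

namespace Pool.Agent.Y733.HEN

open NumberField IsDedekindDomain Polynomial Pool.Agent.H691R3 Pool.Agent.W223.AK
open Pool.Agent.Y733.LS Pool.Agent.Y733.DYN
open Pool.Agent.Y733.UD (fv_int_le)

section One

variable {K : Type} [Field K] [NumberField K]

/-- primes at which `z` has a pole -/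
theorem pole_sum (z : K) (T : Finset (Pr K)) (hT : ∀ v ∈ T, 1 < fv v z) :
    ∑ v ∈ T, Real.log (Nv v) ≤ ht z := by
  refine le_trans (Finset.sum_le_sum fun v hv => ?_) (sum_max_le z T)
  have h1 := hT v hv
  have h0 : z ≠ 0 := by
    rintro rfl
    rw [map_zero] at h1
    linarith
  obtain ⟨m, hm⟩ := fv_zpow v h0
  rw [hm] at h1 ⊢
  have h2 : 1 ≤ m := by
    by_contra hcon
    push Not at hcon
    have h3 : Nv v ^ m ≤ Nv v ^ (0 : ℤ) := zpow_le_zpow_right₀ (Nv_one_lt v).le (by omega)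
    rw [zpow_zero] at h3
    linarith
  apply Real.log_le_log (Nv_pos v)
  refine le_trans ?_ (le_max_left _ _)
  calc Nv v = Nv v ^ (1 : ℤ) := (zpow_one _).symm
    _ ≤ _ := zpow_le_zpow_right₀ (Nv_one_lt v).le h2

theorem ht_inv (z : K) : ht z⁻¹ = ht z := by
  rw [← ht_log, ← ht_log, Height.logHeight₁_inv]

/-- the conditions at a prime of `K` -/
def OkP (F : K[X]) (δ : K) (v : Pr K) : Prop :=
  fv v (F.coeff 0) = Nv v ∧ (∀ i, 1 ≤ i → fv v (F.coeff i) ≤ 1) ∧ fv v F.leadingCoeff = 1 ∧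
    fv v δ ≤ 1

/-- the other coefficients -/
noncomputable def oth (F : K[X]) (δ : K) : ℝ :=
  ht δ + ht F.leadingCoeff + ∑ i ∈ Finset.range F.natDegree, ht (F.coeff (i + 1))

theorem exists_SF (F : K[X]) (δ : K) (hF : F ≠ 0) (hd : 1 ≤ F.natDegree) :
    ∃ S : Finset (Pr K), (∀ v ∈ S, OkP F δ v) ∧
      sp (F.coeff 0) - oth F δ ≤ ∑ v ∈ S, Real.log (Nv v) := by
  classical
  set c := F.coeff 0 with hc
  have hfin := ne_sets (K := K) one_ne_zero one_ne_zero c
  set s := hfin.toFinset with hs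
  have hsp : ∀ v, Sp c v → v ∈ s := by
    intro v hv
    rw [hs, Set.Finite.mem_toFinset]
    right
    right
    rw [hv.2.2]
    exact Nv_one_lt v
  have h1 := sp_eq c s hsp
  rw [← Finset.sum_filter] at h1
  set s0 := s.filter (Sp c) with hs0
  set S := s0.filter fun v => OkP F δ v with hS
  set T1 := s0.filter fun v => 1 < fv v δ with hT1
  set T2 := s0.filter fun v => 1 < fv v F.leadingCoeff⁻¹ with hT2
  set T : ℕ → Finset (Pr K) := fun i => s0.filter fun v => 1 < fv v (F.coeff (i + 1)) with hT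
  have hlog : ∀ v : Pr K, 0 ≤ Real.log (Nv v) := fun v => (log_Nv_pos v).le
  have hcov : s0 ⊆ S ∪ ((T1 ∪ T2) ∪ (Finset.range F.natDegree).biUnion T) := by
    intro v hv
    by_contra hcon
    simp only [Finset.mem_union, not_or] at hcon
    obtain ⟨g1, ⟨g2, g3⟩, g4⟩ := hcon
    apply g1
    rw [hS, Finset.mem_filter]
    rw [hT1, Finset.mem_filter] at g2
    rw [hT2, Finset.mem_filter] at g3
    have hl0 : F.leadingCoeff ≠ 0 := leadingCoeff_ne_zero.2 hF
    have g5 : ∀ i, 1 ≤ i → fv v (F.coeff i) ≤ 1 := by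
      intro i hi
      by_contra g6
      push Not at g6
      apply g4
      rw [Finset.mem_biUnion]
      refine ⟨i - 1, ?_, ?_⟩
      · rw [Finset.mem_range]
        by_contra g7
        rw [coeff_eq_zero_of_natDegree_lt (by omega), map_zero] at g6
        linarith
      · rw [hT]
        simp only [Finset.mem_filter]
        rw [show i - 1 + 1 = i by omega]
        exact ⟨hv, g6⟩
    have g7 : fv v F.leadingCoeff⁻¹ ≤ 1 := by
      by_contra g8
      exact g3 ⟨hv, not_le.1 g8⟩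
    have g9 : 1 ≤ fv v F.leadingCoeff := by
      rw [map_inv₀] at g7
      exact (inv_le_one₀ ((fv v).pos hl0)).1 g7
    rw [hs0, Finset.mem_filter] at hv
    refine ⟨Finset.mem_filter.2 hv, hv.2.2.2, g5, ?_, ?_⟩
    · exact le_antisymm (g5 _ hd) g9
    · by_contra g8
      exact g2 ⟨Finset.mem_filter.2 hv, not_le.1 g8⟩
  have hSmem : ∀ v ∈ S, OkP F δ v := fun v hv => (Finset.mem_filter.1 hv).2
  refine ⟨S, hSmem, ?_⟩
  have hun : ∀ A B : Finset (Pr K), ∑ v ∈ A ∪ B, Real.log (Nv v) ≤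
      ∑ v ∈ A, Real.log (Nv v) + ∑ v ∈ B, Real.log (Nv v) := by
    intro A B
    have h3 := Finset.sum_union_inter (s₁ := A) (s₂ := B) (f := fun v : Pr K => Real.log (Nv v))
    have h4 : 0 ≤ ∑ v ∈ A ∩ B, Real.log (Nv v) := Finset.sum_nonneg fun v _ => hlog v
    linarith
  have e0 : sp c ≤ ∑ v ∈ S ∪ ((T1 ∪ T2) ∪ (Finset.range F.natDegree).biUnion T),
      Real.log (Nv v) := by
    rw [h1]
    exact Finset.sum_le_sum_of_subset_of_nonneg hcov fun v _ _ => hlog v
  have e1 := hun S ((T1 ∪ T2) ∪ (Finset.range F.natDegree).biUnion T)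
  have e2 := hun (T1 ∪ T2) ((Finset.range F.natDegree).biUnion T)
  have e3 := hun T1 T2
  have e4 := sum_biUnion_le (Finset.range F.natDegree) T (fun v : Pr K => Real.log (Nv v)) hlog
  have e5 : ∑ v ∈ T1, Real.log (Nv v) ≤ ht δ :=
    pole_sum δ T1 fun v hv => (Finset.mem_filter.1 hv).2
  have e6 : ∑ v ∈ T2, Real.log (Nv v) ≤ ht F.leadingCoeff := by
    rw [← ht_inv]
    exact pole_sum _ T2 fun v hv => (Finset.mem_filter.1 hv).2
  have e7 : ∑ i ∈ Finset.range F.natDegree, ∑ v ∈ T i, Real.log (Nv v) ≤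
      ∑ i ∈ Finset.range F.natDegree, ht (F.coeff (i + 1)) :=
    Finset.sum_le_sum fun i _ => pole_sum _ (T i) fun v hv => (Finset.mem_filter.1 hv).2
  unfold oth
  linarith

end One

section Two

variable {K L : Type} [Field K] [NumberField K] [Field L] [NumberField L] [Algebra K L]

/-- a condition above `v` -/
theorem ext_le {v : Pr K} {w : Pr L} (hw : w ∈ Ab L v) {z : K} (hz : fv v z ≤ 1) :
    fv w (algebraMap K L z) ≤ 1 := by
  rcases eq_or_ne z 0 with rfl | h0
  · rw [map_zero, map_zero]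
    exact zero_le_one
  · obtain ⟨m, hm⟩ := fv_zpow v h0
    have h1 : m ≤ 0 := by
      by_contra hcon
      push Not at hcon
      rw [hm] at hz
      have := one_lt_zpow₀ (Nv_one_lt v) hcon
      linarith
    rw [fv_ext hw hm]
    apply zpow_le_one_of_nonpos₀ (Nv_one_lt w).le
    have : (0 : ℤ) ≤ ri v w := Int.natCast_nonneg _
    nlinarith

theorem locC_of {F : K[X]} {δ : K} (hd : 2 ≤ F.natDegree) (hδ : δ ≠ 0)
    (hL : Module.finrank K L < F.natDegree) {v : Pr K} (hv : OkP F δ v) {w : Pr L}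
    (hw : w ∈ Ab L v) : LocC (fv w) (F.map (algebraMap K L)) (algebraMap K L δ)
      (Nv w ^ ri v w) := by
  have hN := Nv_one_lt w
  have hri := ri_pos hw
  have hrd : ri v w < F.natDegree := (ri_le hw).trans_lt hL
  obtain ⟨h1, h2, h3, h4⟩ := hv
  have hinj : Function.Injective (algebraMap K L) := (algebraMap K L).injective
  refine ⟨fv_Na w, one_lt_pow₀ hN (by omega), ?_, ?_, ?_, ext_le hw h4, ?_, ?_, ?_⟩
  · rw [coeff_map]
    have h5 : fv v (F.coeff 0) = Nv v ^ (1 : ℤ) := by rw [h1, zpow_one]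
    rw [fv_ext hw h5, one_mul, zpow_natCast]
  · intro i hi
    rw [coeff_map]
    exact ext_le hw (h2 i hi)
  · rw [leadingCoeff_map]
    have h5 : fv v F.leadingCoeff = Nv v ^ (0 : ℤ) := by rw [h3, zpow_zero]
    rw [fv_ext hw h5, zero_mul, zpow_zero]
  · rwa [Ne, map_eq_zero_iff _ hinj]
  · rwa [natDegree_map]
  · intro y hy
    rw [natDegree_map]
    have hy0 : y ≠ 0 := by
      rintro rfl
      rw [map_zero] at hy
      linarith
    obtain ⟨m, hm⟩ := fv_zpow w hy0
    rw [hm] at hy ⊢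
    have h5 : 1 ≤ m := by
      by_contra hcon
      push Not at hcon
      have h6 : Nv w ^ m ≤ Nv w ^ (0 : ℤ) := zpow_le_zpow_right₀ hN.le (by omega)
      rw [zpow_zero] at h6
      linarith
    rw [← zpow_natCast, ← zpow_natCast, ← zpow_mul]
    apply zpow_lt_zpow_right₀ hN
    have : (ri v w : ℤ) < F.natDegree := by exact_mod_cast hrd
    nlinarith

/-- the height of a point of the plane -/
noncomputable def pht (P : L × L) : ℝ := Height.logHeight ![1, P.1, P.2]

theorem sum_le_pht (T : Finset (Pr L)) (P : L × L) :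
    ∑ w ∈ T, Real.log (mx (fv w) ![P.1, P.2]) ≤ pht P := sum_le_ht T ![P.1, P.2]

/-- the Hénon map over `L` -/
noncomputable def henL (L : Type) [Field L] [NumberField L] [Algebra K L] (F : K[X]) (δ : K) :
    L × L → L × L := hen (F.map (algebraMap K L)) (algebraMap K L δ)

/-- its inverse -/
noncomputable def invL (L : Type) [Field L] [NumberField L] [Algebra K L] (F : K[X]) (δ : K) :
    L × L → L × L := inv (F.map (algebraMap K L)) (algebraMap K L δ)

/-- **heights of the iterates** -/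
theorem hen_iter {F : K[X]} {δ : K} (hd : 2 ≤ F.natDegree) (hδ : δ ≠ 0)
    (hL : Module.finrank K L < F.natDegree) (S : Finset (Pr K)) (hS : ∀ v ∈ S, OkP F δ v)
    (P : L × L) (k : ℕ) :
    (F.natDegree : ℝ) ^ k * (Module.finrank K L * ∑ v ∈ S, Real.log (Nv v)) ≤
      pht ((henL L F δ)^[k + 1] P) + pht ((invL L F δ)^[k + 1] P) := by
  classical
  have hdisj : ∀ v ∈ S, ∀ v' ∈ S, v ≠ v' → Disjoint (Ab L v) (Ab L v') :=
    fun v _ v' _ h => Ab_disj h
  refine le_trans ?_ (add_le_add (sum_le_pht (S.biUnion (Ab L)) _)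
    (sum_le_pht (S.biUnion (Ab L)) _))
  rw [← Finset.sum_add_distrib, Finset.sum_biUnion hdisj, Finset.mul_sum, Finset.mul_sum]
  refine Finset.sum_le_sum fun v hv => ?_
  rw [← sum_Ab (L := L) v, Finset.mul_sum]
  refine Finset.sum_le_sum fun w hw => ?_
  have hN := Nv_one_lt w
  have hN0 := Nv_pos w
  have hloc := locC_of hd hδ hL (hS v hv) hw
  have hr := hloc.one_lt
  have h3 : (F.natDegree : ℝ) ^ k * ((ri v w : ℝ) * Real.log (Nv w)) =
      Real.log ((Nv w ^ ri v w) ^ F.natDegree ^ k) := by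
    rw [Real.log_pow, Real.log_pow]
    push_cast
    ring
  have hnn : ∀ Q : L × L, 0 ≤ Real.log (mx (fv w) ![Q.1, Q.2]) := fun Q =>
    Real.log_nonneg (one_le_mx _)
  have hdm : (F.map (algebraMap K L)).natDegree = F.natDegree := natDegree_map _
  rw [h3]
  rcases escape hloc P with h4 | h4
  · have h5 := h4 k
    rw [hdm] at h5
    have h6 := h5.trans (le_mx (w := fv w) ![((henL L F δ)^[k + 1] P).1,
      ((henL L F δ)^[k + 1] P).2] 1)
    have h7 := Real.log_le_log (by positivity) h6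
    have h8 := hnn ((invL L F δ)^[k + 1] P)
    linarith
  · have h5 := h4 (k + 1)
    rw [hdm] at h5
    have h6 := h5.trans (le_mx (w := fv w) ![((invL L F δ)^[k + 1] P).1,
      ((invL L F δ)^[k + 1] P).2] 0)
    have h7 : (Nv w ^ ri v w) ^ F.natDegree ^ k ≤ (Nv w ^ ri v w) ^ F.natDegree ^ (k + 1) :=
      pow_le_pow_right₀ hr.le (Nat.pow_le_pow_right (by omega) (by omega))
    have h9 := Real.log_le_log (by positivity) (h7.trans h6)
    have h8 := hnn ((henL L F δ)^[k + 1] P)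
    linarith

end Two

/-- the constant terms for which all Hénon maps push all points away -/
def HenP (κ : ℝ) {K : Type} [Field K] [NumberField K] (c : K) : Prop :=
  ∀ (F : K[X]) (δ : K), 2 ≤ F.natDegree → F.coeff 0 = c → δ ≠ 0 →
    ∀ (L : Type) [Field L] [NumberField L] [Algebra K L], Module.finrank K L < F.natDegree →
      ∀ (P : L × L) (k : ℕ),
        (F.natDegree : ℝ) ^ k * (Module.finrank K L *
          (κ * (Module.finrank ℚ K + ht c) - oth F δ)) ≤
          pht ((henL L F δ)^[k + 1] P) + pht ((invL L F δ)^[k + 1] P)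

theorem hen_of {K : Type} [Field K] [NumberField K] {κ κ' : ℝ} (hκκ : κ < κ') (c : K)
    (hc : κ' * ht c ≤ sp c) (hbig : Module.finrank ℚ K * (κ / (κ' - κ)) ≤ ht c) : HenP κ c := by
  intro F δ hd hF0 hδ L _ _ _ hL P k
  have hF : F ≠ 0 := by
    rintro rfl
    simp at hd
  obtain ⟨S, hS, hsum⟩ := exists_SF F δ hF (by omega)
  refine le_trans ?_ (hen_iter hd hδ hL S hS P k)
  refine mul_le_mul_of_nonneg_left (mul_le_mul_of_nonneg_left ?_ (Nat.cast_nonneg _))
    (by positivity)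
  refine le_trans ?_ hsum
  rw [hF0]
  have h3 : (Module.finrank ℚ K : ℝ) * κ ≤ (κ' - κ) * ht c := by
    have h4 : 0 < κ' - κ := by linarith
    have h5 := mul_le_mul_of_nonneg_left hbig h4.le
    have h6 : (κ' - κ) * (Module.finrank ℚ K * (κ / (κ' - κ))) = Module.finrank ℚ K * κ := by
      field_simp
    linarith
  linarith

/-- the elements which do not have nearly all of their height at simple poles -/
theorem gd_card {κ ε : ℝ} (hκ0 : 0 ≤ κ) (hκ1 : κ < 1) (hε : 0 < ε) :
    ∃ κ' A : ℝ, κ < κ' ∧ κ' < 1 ∧ 0 ≤ A ∧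
      ∀ (K : Type) [Field K] [NumberField K] (X : ℝ) (E : Finset K), 0 ≤ X →
        (∀ c ∈ E, ht c ≤ X ∧
          ¬ (κ' * ht c ≤ sp c ∧ Module.finrank ℚ K * (κ / (κ' - κ)) ≤ ht c)) →
        (E.card : ℝ) ≤
          Real.exp (Module.finrank ℚ K * A + (2 - (1 - κ) / 2 + ε) * X) := by
  classical
  obtain ⟨A1, hA1, h1⟩ := fb_card (ε := 1) one_pos
  obtain ⟨A2, hA2, h2⟩ := bad_card (half_pos hε)
  set t : ℝ := min ε ((1 - κ) / 2) with ht0
  have ht1 : 0 < t := lt_min hε (by linarith)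
  have ht2 : t ≤ ε := min_le_left _ _
  have ht3 : t ≤ (1 - κ) / 2 := min_le_right _ _
  set L0 : ℝ := κ / t with hL0
  have hL00 : 0 ≤ L0 := by positivity
  have hl2 : 0 ≤ Real.log 2 := Real.log_nonneg (by norm_num)
  refine ⟨κ + t, A2 + (A1 + 3 * L0) + Real.log 2, by linarith, by linarith, by positivity, ?_⟩
  intro K _ _ X E hX hE
  set n := Module.finrank ℚ K with hn
  have hn1 : (1 : ℝ) ≤ n := Pool.Agent.Y733.UD.finrank_one_le K
  set E1 := E.filter fun c => sp c < (1 - (1 - (κ + t))) * ht c with hE1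
  have hcov : E ⊆ E1 ∪ Fb K (n * L0) := by
    intro c hc
    obtain ⟨g1, g2⟩ := hE c hc
    rw [Finset.mem_union, mem_Fb]
    by_contra hcon
    push Not at hcon
    obtain ⟨g3, g4⟩ := hcon
    apply g2
    refine ⟨?_, ?_⟩
    · by_contra g5
      push Not at g5
      apply g3
      rw [hE1, Finset.mem_filter]
      refine ⟨hc, ?_⟩
      rw [show 1 - (1 - (κ + t)) = κ + t by ring]
      exact g5
    · rw [show κ + t - κ = t by ring]
      exact g4.le
  have hc1 : (E1.card : ℝ) ≤ Real.exp (n * A2 + (2 - (1 - (κ + t)) / 2 + ε / 2) * X) := by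
    refine h2 K _ X E1 (by linarith) fun c hc => ?_
    rw [hE1, Finset.mem_filter] at hc
    exact ⟨(hE c hc.1).1, hc.2⟩
  have hc2 := h1 K (n * L0) (by positivity)
  have hcard : (E.card : ℝ) ≤ E1.card + (Fb K (n * L0)).card := by
    exact_mod_cast (Finset.card_le_card hcov).trans (Finset.card_union_le _ _)
  set Y : ℝ := n * (A2 + (A1 + 3 * L0)) + (2 - (1 - κ) / 2 + ε) * X with hY
  have hD : 0 ≤ (2 - (1 - κ) / 2 + ε) * X := mul_nonneg (by linarith) hX
  have hn0 : (0 : ℝ) ≤ n := by linarith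
  have y1 : Real.exp (n * A2 + (2 - (1 - (κ + t)) / 2 + ε / 2) * X) ≤ Real.exp Y := by
    apply Real.exp_le_exp.2
    have : (2 - (1 - (κ + t)) / 2 + ε / 2) * X ≤ (2 - (1 - κ) / 2 + ε) * X :=
      mul_le_mul_of_nonneg_right (by linarith) hX
    have h3 : 0 ≤ (n : ℝ) * (A1 + 3 * L0) := by positivity
    rw [hY]
    linarith
  have y2 : Real.exp (n * A1 + (2 + 1) * (n * L0)) ≤ Real.exp Y := by
    apply Real.exp_le_exp.2
    have h3 : 0 ≤ (n : ℝ) * A2 := by positivity
    rw [hY]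
    linarith
  have h4 : (2 : ℝ) ≤ Real.exp (n * Real.log 2) := by
    have h4 : Real.exp (Real.log (2 : ℝ)) = 2 := Real.exp_log (by norm_num)
    calc (2 : ℝ) = Real.exp (Real.log (2 : ℝ)) := h4.symm
      _ ≤ _ := Real.exp_le_exp.2 (by nlinarith)
  calc (E.card : ℝ) ≤ 2 * Real.exp Y := by linarith
    _ ≤ Real.exp (n * Real.log 2) * Real.exp Y :=
        mul_le_mul_of_nonneg_right h4 (Real.exp_pos _).le
    _ = _ := by
        rw [← Real.exp_add]
        congr 1
        rw [hY]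
        ring

end Pool.Agent.Y733.HEN
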