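import Mathlib
import Pool.Agent.Y733.HEN.Main

/-!
# Polynomials with a large constant term and few bad primes: heights of the iterates
-/

set_option autoImplicit false
set_option linter.unusedSectionVars false

namespace Pool.Agent.Y733.HEN

open NumberField IsDedekindDomain Polynomial Pool.Agent.H691R3 Pool.Agent.W223.AK
open Pool.Agent.Y733.LS Pool.Agent.Y733.DYN
open Pool.Agent.Y733.UD (fv_int_le)

/-- the other coefficients are integral at `v` and the leading one is a unit -/
def GoodP {K : Type} [Field K] [NumberField K] (F : K[X]) (v : Pr K) : Prop :=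
  (∀ i, 1 ≤ i → fv v (F.coeff i) ≤ 1) ∧ fv v F.leadingCoeff = 1

theorem exists_ST {K : Type} [Field K] [NumberField K] (F : K[X]) (T : Finset (Pr K))
    (hT : ∀ v, v ∉ T → GoodP F v) :
    ∃ S : Finset (Pr K), (∀ v ∈ S, OkP F 1 v) ∧
      sp (F.coeff 0) - ∑ v ∈ T, Real.log (Nv v) ≤ ∑ v ∈ S, Real.log (Nv v) := by
  classical
  set c := F.coeff 0 with hc
  have hfin := ne_sets (K := K) one_ne_zero one_ne_zero c
  set s := hfin.toFinset with hs
  have hsp : ∀ v, Sp c v → v ∈ s := by
    intro v hv
    rw [hs, Set.Finite.mem_toFinset]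
    right
    right
    rw [hv.2.2]
    exact Nv_one_lt v
  have h1 := sp_eq c s hsp
  rw [← Finset.sum_filter] at h1
  have hlog : ∀ v : Pr K, 0 ≤ Real.log (Nv v) := fun v => (log_Nv_pos v).le
  refine ⟨s.filter (Sp c) \ T, fun v hv => ?_, ?_⟩
  · rw [Finset.mem_sdiff, Finset.mem_filter] at hv
    obtain ⟨g1, g2⟩ := hT v hv.2
    exact ⟨hv.1.2.2.2, g1, g2, by rw [map_one]⟩
  · rw [h1]
    have h2 : ∑ v ∈ s.filter (Sp c), Real.log (Nv v) ≤
        ∑ v ∈ (s.filter (Sp c) \ T) ∪ T, Real.log (Nv v) := by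
      refine Finset.sum_le_sum_of_subset_of_nonneg (fun v hv => ?_) fun v _ _ => hlog v
      rw [Finset.mem_union, Finset.mem_sdiff]
      by_cases h : v ∈ T
      · exact Or.inr h
      · exact Or.inl ⟨hv, h⟩
    rw [Finset.sum_union Finset.sdiff_disjoint] at h2
    linarith

section Loc

variable {L : Type} [Field L] {w : AbsoluteValue L ℝ} {F : L[X]} {δ : L} {r : ℝ}

/-- all iterates are large -/
theorem pol_loc (h : LocC w F δ r) (x : L) (k : ℕ) :
    r ^ F.natDegree ^ k ≤ w ((fun y => F.eval y)^[k + 1] x) := by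
  have hr := h.one_lt
  induction k with
  | zero =>
    rw [pow_zero, pow_one, zero_add, Function.iterate_one]
    exact (r_le_eval h x).1
  | succ k ih =>
    have h1 : r ≤ w ((fun y => F.eval y)^[k + 1] x) :=
      (le_self_pow₀ hr.le (by have := h.deg; positivity)).trans ih
    rw [Function.iterate_succ', Function.comp_apply]
    have h2 := (lt_eval h h1).1
    change r ^ F.natDegree ^ (k + 1) ≤ w (F.eval ((fun y => F.eval y)^[k + 1] x))
    rw [h2, pow_succ, pow_mul]
    exact pow_le_pow_left₀ (by positivity) ih _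

end Loc

section Two

variable {K L : Type} [Field K] [NumberField K] [Field L] [NumberField L] [Algebra K L]

/-- the polynomial map over `L` -/
noncomputable def polL (L : Type) [Field L] [NumberField L] [Algebra K L] (F : K[X]) : L → L :=
  fun y => (F.map (algebraMap K L)).eval y

/-- **heights of the iterates** -/
theorem pol_iter {F : K[X]} (hd : 2 ≤ F.natDegree)
    (hL : Module.finrank K L < F.natDegree) (S : Finset (Pr K)) (hS : ∀ v ∈ S, OkP F 1 v)
    (x : L) (k : ℕ) :
    (F.natDegree : ℝ) ^ k * (Module.finrank K L * ∑ v ∈ S, Real.log (Nv v)) ≤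
      ht ((polL L F)^[k + 1] x) := by
  classical
  have hdisj : ∀ v ∈ S, ∀ v' ∈ S, v ≠ v' → Disjoint (Ab L v) (Ab L v') :=
    fun v _ v' _ h => Ab_disj h
  refine le_trans ?_ (sum_max_le _ (S.biUnion (Ab L)))
  rw [Finset.sum_biUnion hdisj, Finset.mul_sum, Finset.mul_sum]
  refine Finset.sum_le_sum fun v hv => ?_
  rw [← sum_Ab (L := L) v, Finset.mul_sum]
  refine Finset.sum_le_sum fun w hw => ?_
  have hN := Nv_one_lt w
  have hN0 := Nv_pos w
  have hloc := locC_of hd one_ne_zero hL (hS v hv) hw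
  have hr := hloc.one_lt
  have h3 : (F.natDegree : ℝ) ^ k * ((ri v w : ℝ) * Real.log (Nv w)) =
      Real.log ((Nv w ^ ri v w) ^ F.natDegree ^ k) := by
    rw [Real.log_pow, Real.log_pow]
    push_cast
    ring
  rw [h3]
  apply Real.log_le_log (by positivity)
  refine le_trans ?_ (le_max_left _ _)
  have h5 := pol_loc hloc x k
  rw [natDegree_map] at h5
  exact h5

end Two

/-- the constant terms for which all polynomials push all points away -/
def PolP (κ : ℝ) {K : Type} [Field K] [NumberField K] (c : K) : Prop :=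
  ∀ F : K[X], 2 ≤ F.natDegree → F.coeff 0 = c → ∀ T : Finset (Pr K), (∀ v, v ∉ T → GoodP F v) →
    ∀ (L : Type) [Field L] [NumberField L] [Algebra K L], Module.finrank K L < F.natDegree →
      ∀ (x : L) (k : ℕ),
        (F.natDegree : ℝ) ^ k * (Module.finrank K L *
          (κ * (Module.finrank ℚ K + ht c) - ∑ v ∈ T, Real.log (Nv v))) ≤
          ht ((polL L F)^[k + 1] x)

theorem pol_of {K : Type} [Field K] [NumberField K] {κ κ' : ℝ} (hκκ : κ < κ') (c : K)
    (hc : κ' * ht c ≤ sp c) (hbig : Module.finrank ℚ K * (κ / (κ' - κ)) ≤ ht c) : PolP κ c := by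
  intro F hd hF0 T hT L _ _ _ hL x k
  obtain ⟨S, hS, hsum⟩ := exists_ST F T hT
  refine le_trans ?_ (pol_iter hd hL S hS x k)
  refine mul_le_mul_of_nonneg_left (mul_le_mul_of_nonneg_left ?_ (Nat.cast_nonneg _))
    (by positivity)
  refine le_trans ?_ hsum
  rw [hF0]
  have h3 : (Module.finrank ℚ K : ℝ) * κ ≤ (κ' - κ) * ht c := by
    have h4 : 0 < κ' - κ := by linarith
    have h5 := mul_le_mul_of_nonneg_left hbig h4.le
    have h6 : (κ' - κ) * (Module.finrank ℚ K * (κ / (κ' - κ))) = Module.finrank ℚ K * κ := by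
      field_simp
    linarith
  linarith

end Pool.Agent.Y733.HEN
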