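import Mathlib
import Pool.Agent.Y733.HEN.Pol

/-!
# Hénon maps with a large constant term and few bad primes: heights
-/

set_option autoImplicit false
set_option linter.unusedSectionVars false

namespace Pool.Agent.Y733.HEN

open NumberField IsDedekindDomain Polynomial Pool.Agent.H691R3 Pool.Agent.W223.AK
open Pool.Agent.Y733.LS Pool.Agent.Y733.DYN
open Pool.Agent.Y733.UD (fv_int_le)

theorem exists_ST2 {K : Type} [Field K] [NumberField K] (F : K[X]) (δ : K) (T : Finset (Pr K))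
    (hT : ∀ v, v ∉ T → GoodP F v ∧ fv v δ ≤ 1) :
    ∃ S : Finset (Pr K), (∀ v ∈ S, OkP F δ v) ∧
      sp (F.coeff 0) - ∑ v ∈ T, Real.log (Nv v) ≤ ∑ v ∈ S, Real.log (Nv v) := by
  classical
  set c := F.coeff 0 with hc
  have hfin := ne_sets (K := K) one_ne_zero one_ne_zero c
  set s := hfin.toFinset with hs
  have hsp : ∀ v, Sp c v → v ∈ s := by
    intro v hv
    rw [hs, Set.Finite.mem_toFinset]
    right
    right
    rw [hv.2.2]
    exact Nv_one_lt v
  have h1 := sp_eq c s hsp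
  rw [← Finset.sum_filter] at h1
  have hlog : ∀ v : Pr K, 0 ≤ Real.log (Nv v) := fun v => (log_Nv_pos v).le
  refine ⟨s.filter (Sp c) \ T, fun v hv => ?_, ?_⟩
  · rw [Finset.mem_sdiff, Finset.mem_filter] at hv
    obtain ⟨⟨g1, g2⟩, g3⟩ := hT v hv.2
    exact ⟨hv.1.2.2.2, g1, g2, g3⟩
  · rw [h1]
    have h2 : ∑ v ∈ s.filter (Sp c), Real.log (Nv v) ≤
        ∑ v ∈ (s.filter (Sp c) \ T) ∪ T, Real.log (Nv v) := by
      refine Finset.sum_le_sum_of_subset_of_nonneg (fun v hv => ?_) fun v _ _ => hlog v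
      rw [Finset.mem_union, Finset.mem_sdiff]
      by_cases h : v ∈ T
      · exact Or.inr h
      · exact Or.inl ⟨hv, h⟩
    rw [Finset.sum_union Finset.sdiff_disjoint] at h2
    linarith

/-- the bad primes and the heights of the coefficients -/
theorem exists_T {K : Type} [Field K] [NumberField K] (F : K[X]) (δ : K) (hF : F ≠ 0)
    (hd : 1 ≤ F.natDegree) : ∃ T : Finset (Pr K), (∀ v, v ∉ T → GoodP F v ∧ fv v δ ≤ 1) ∧
      ∑ v ∈ T, Real.log (Nv v) ≤ oth F δ := by
  classical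
  have hfin : ∀ z : K, {v : Pr K | 1 < fv v z}.Finite := fun z =>
    (ne_sets (K := K) one_ne_zero one_ne_zero z).subset fun v hv => Or.inr (Or.inr hv)
  set P : K → Finset (Pr K) := fun z => (hfin z).toFinset with hP
  have hPm : ∀ z v, v ∈ P z ↔ 1 < fv v z := fun z v => by
    rw [hP]
    simp only [Set.Finite.mem_toFinset]
    rfl
  have hPs : ∀ z, ∑ v ∈ P z, Real.log (Nv v) ≤ ht z := fun z =>
    pole_sum z (P z) fun v hv => (hPm z v).1 hv
  have hlog : ∀ v : Pr K, 0 ≤ Real.log (Nv v) := fun v => (log_Nv_pos v).le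
  have hun : ∀ A B : Finset (Pr K), ∑ v ∈ A ∪ B, Real.log (Nv v) ≤
      ∑ v ∈ A, Real.log (Nv v) + ∑ v ∈ B, Real.log (Nv v) := by
    intro A B
    have h3 := Finset.sum_union_inter (s₁ := A) (s₂ := B) (f := fun v : Pr K => Real.log (Nv v))
    have h4 : 0 ≤ ∑ v ∈ A ∩ B, Real.log (Nv v) := Finset.sum_nonneg fun v _ => hlog v
    linarith
  have hl0 : F.leadingCoeff ≠ 0 := leadingCoeff_ne_zero.2 hF
  refine ⟨(P δ ∪ P F.leadingCoeff⁻¹) ∪ (Finset.range F.natDegree).biUnion
    (fun i => P (F.coeff (i + 1))), fun v hv => ?_, ?_⟩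
  · simp only [Finset.mem_union, not_or] at hv
    obtain ⟨⟨g1, g2⟩, g3⟩ := hv
    rw [hPm, not_lt] at g1
    rw [hPm, not_lt, map_inv₀] at g2
    have g5 : ∀ i, 1 ≤ i → fv v (F.coeff i) ≤ 1 := by
      intro i hi
      by_contra g6
      push Not at g6
      apply g3
      rw [Finset.mem_biUnion]
      refine ⟨i - 1, ?_, ?_⟩
      · rw [Finset.mem_range]
        by_contra g7
        rw [coeff_eq_zero_of_natDegree_lt (by omega), map_zero] at g6
        linarith
      · rw [hPm, show i - 1 + 1 = i by omega]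
        exact g6
    exact ⟨⟨g5, le_antisymm (g5 _ hd) ((inv_le_one₀ ((fv v).pos hl0)).1 g2)⟩, g1⟩
  · have e1 := hun (P δ ∪ P F.leadingCoeff⁻¹) ((Finset.range F.natDegree).biUnion
      (fun i => P (F.coeff (i + 1))))
    have e2 := hun (P δ) (P F.leadingCoeff⁻¹)
    have e3 := sum_biUnion_le (Finset.range F.natDegree) (fun i => P (F.coeff (i + 1)))
      (fun v : Pr K => Real.log (Nv v)) hlog
    have e4 := hPs δ
    have e5 := hPs F.leadingCoeff⁻¹
    rw [ht_inv] at e5
    have e6 : ∑ i ∈ Finset.range F.natDegree, ∑ v ∈ P (F.coeff (i + 1)), Real.log (Nv v) ≤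
        ∑ i ∈ Finset.range F.natDegree, ht (F.coeff (i + 1)) :=
      Finset.sum_le_sum fun i _ => hPs _
    unfold oth
    linarith

/-- the constant terms for which all Hénon maps push all points away -/
def HenT (κ : ℝ) {K : Type} [Field K] [NumberField K] (c : K) : Prop :=
  ∀ (F : K[X]) (δ : K), 2 ≤ F.natDegree → F.coeff 0 = c → δ ≠ 0 →
    ∀ T : Finset (Pr K), (∀ v, v ∉ T → GoodP F v ∧ fv v δ ≤ 1) →
    ∀ (L : Type) [Field L] [NumberField L] [Algebra K L], Module.finrank K L < F.natDegree →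
      ∀ (P : L × L) (k : ℕ),
        (F.natDegree : ℝ) ^ k * (Module.finrank K L *
          (κ * (Module.finrank ℚ K + ht c) - ∑ v ∈ T, Real.log (Nv v))) ≤
          pht ((henL L F δ)^[k + 1] P) + pht ((invL L F δ)^[k + 1] P)

theorem henT_of {K : Type} [Field K] [NumberField K] {κ κ' : ℝ} (hκκ : κ < κ') (c : K)
    (hc : κ' * ht c ≤ sp c) (hbig : Module.finrank ℚ K * (κ / (κ' - κ)) ≤ ht c) : HenT κ c := by
  intro F δ hd hF0 hδ T hT L _ _ _ hL P k
  obtain ⟨S, hS, hsum⟩ := exists_ST2 F δ T hT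
  refine le_trans ?_ (hen_iter hd hδ hL S hS P k)
  refine mul_le_mul_of_nonneg_left (mul_le_mul_of_nonneg_left ?_ (Nat.cast_nonneg _))
    (by positivity)
  refine le_trans ?_ hsum
  rw [hF0]
  have h3 : (Module.finrank ℚ K : ℝ) * κ ≤ (κ' - κ) * ht c := by
    have h4 : 0 < κ' - κ := by linarith
    have h5 := mul_le_mul_of_nonneg_left hbig h4.le
    have h6 : (κ' - κ) * (Module.finrank ℚ K * (κ / (κ' - κ))) = Module.finrank ℚ K * κ := by
      field_simp
    linarith
  linarith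

end Pool.Agent.Y733.HEN
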